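import Pool.Agent.Q74.PD.Stm10

/-! Project PD, job Cmp: pointwise bound of `Dn` by the largest weight of a valid prefix. -/

set_option autoImplicit false

namespace Pool.Agent.Q299.PD.Cmp

open Finset Filter Topology
open Pool.Agent.Q74.PD Pool.Agent.H320R2.PD

theorem wo_ones (n : ℕ) : (Wo (List.replicate n 1) : ℤ) = 3 ^ n - 2 ^ n := by
  induction n with
  | zero => simp [Wo]
  | succ n ih =>
    rw [List.replicate_succ]
    unfold Wo
    push_cast
    rw [ih, List.sum_replicate, smul_eq_mul, mul_one]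
    ring

/-- passing to the limit over the caps -/
theorem lim_le {d : ℤ} {n : ℕ} {a : ℤ} {K : ℝ} (hD : S_Dlm) (hd : IsCoprime d 3) (h : ∀ cap : ℕ, Dc d cap n a ≤ K) :
    Dn d n a ≤ K := by
  have h1 : Tendsto (fun cap : ℕ => K + 3 ^ n * n * (1 / 2 : ℝ) ^ cap) atTop (𝓝 (K + 3 ^ n * n * 0)) :=
    tendsto_const_nhds.add ((tendsto_pow_atTop_nhds_zero_of_lt_one (by norm_num) (by norm_num)).const_mul _)
  rw [mul_zero, add_zero] at h1
  refine ge_of_tendsto' h1 fun cap => ?_
  have h2 := ((hD d hd n).1 cap a).2.2.2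
  linarith [h cap]

theorem part1 (hS : S_Sup) (hD : S_Dlm) (d : ℤ) (hd : IsCoprime d 3) (n : ℕ) (hn : 1 ≤ n) (L : ℝ) (hL : 1 ≤ L) (a : ℤ)
    (H : ∀ u : List ℕ, (∀ e ∈ u, 1 ≤ e) → 1 ≤ u.length → u.length ≤ n → (3 : ℤ) ^ u.length ∣ 2 ^ u.sum * a - d * Wo u →
      (3 : ℝ) ^ u.length ≤ L * 2 ^ u.sum) : Dn d n a ≤ 6 * (n : ℝ) ^ 3 * L := by
  classical
  refine lim_le hD hd fun cap => ?_
  refine le_trans (le_of_eq ?_) (hS d hd cap n hn L hL a)
  unfold Dc
  refine sum_congr rfl fun w hw => ?_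
  rw [mem_FW] at hw
  by_cases hv : (3 : ℤ) ^ n ∣ 2 ^ w.sum * a - d * Wo w
  · rw [if_pos hv, if_pos]
    refine ⟨hv, fun i hi => ?_⟩
    rw [mem_Icc] at hi
    have hlen : (w.take i).length = i := by
      rw [List.length_take, hw.1, min_eq_left hi.2]
    have hval : (3 : ℤ) ^ i ∣ 2 ^ (w.take i).sum * a - d * Wo (w.take i) := by
      have h1 : w.take i ++ w.drop i = w := List.take_append_drop i w
      have h2 : (Wo w : ℤ) = 2 ^ (w.drop i).sum * Wo (w.take i) + 3 ^ i * Wo (w.drop i) := by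
        conv_lhs => rw [← h1]
        rw [Wo_append, hlen]
        push_cast
        ring
      have h3 : w.sum = (w.take i).sum + (w.drop i).sum := by
        conv_lhs => rw [← h1]
        rw [List.sum_append]
      have h4 : (3 : ℤ) ^ i ∣ 2 ^ w.sum * a - d * Wo w := (pow_dvd_pow 3 hi.2).trans hv
      rw [h2, h3] at h4
      have h5 : (2 : ℤ) ^ (w.drop i).sum * (2 ^ (w.take i).sum * a - d * Wo (w.take i)) =
          (2 ^ ((w.take i).sum + (w.drop i).sum) * a - d * (2 ^ (w.drop i).sum * Wo (w.take i) + 3 ^ i * Wo (w.drop i))) +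
            3 ^ i * (d * Wo (w.drop i)) := by
        rw [pow_add]
        ring
      have h6 : (3 : ℤ) ^ i ∣ 2 ^ (w.drop i).sum * (2 ^ (w.take i).sum * a - d * Wo (w.take i)) := by
        rw [h5]
        exact dvd_add h4 (dvd_mul_right _ _)
      have hcop : IsCoprime ((3 : ℤ) ^ i) ((2 : ℤ) ^ (w.drop i).sum) := by
        apply IsCoprime.pow
        rw [Int.isCoprime_iff_gcd_eq_one]
        rfl
      exact hcop.dvd_of_dvd_mul_left h6
    have h7 := H (w.take i) (fun e he => (hw.2 e (List.mem_of_mem_take he)).1) (by rw [hlen]; exact hi.1)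
      (by rw [hlen]; exact hi.2) (by rw [hlen]; exact hval)
    rwa [hlen] at h7
  · rw [if_neg hv, if_neg (fun h => hv h.1)]

theorem part2 (hD : S_Dlm) (d : ℤ) (hd : IsCoprime d 3) (n : ℕ) : (3 / 2 : ℝ) ^ n ≤ Dn d n (-d) := by
  classical
  refine le_trans ?_ ((hD d hd n).1 1 (-d)).2.1
  unfold Dc
  have hmem : List.replicate n 1 ∈ FW 1 n := by
    rw [mem_FW]
    refine ⟨List.length_replicate, fun e he => ?_⟩
    rw [List.eq_of_mem_replicate he]
    exact ⟨le_rfl, le_rfl⟩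
  have h1 := single_le_sum (f := fun w : List ℕ =>
    if (3 : ℤ) ^ n ∣ 2 ^ w.sum * (-d) - d * Wo w then (3 : ℝ) ^ n * wwt w else 0) (s := FW 1 n) (fun w _ => by
      split_ifs
      · have := wwt_nonneg w
        positivity
      · exact le_rfl) hmem
  refine le_trans (le_of_eq ?_) h1
  change _ = if (3 : ℤ) ^ n ∣ 2 ^ (List.replicate n 1).sum * (-d) - d * Wo (List.replicate n 1) then
    (3 : ℝ) ^ n * wwt (List.replicate n 1) else 0
  have hs : (List.replicate n 1).sum = n := by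
    rw [List.sum_replicate, smul_eq_mul, mul_one]
  rw [if_pos, wwt, hs, div_eq_mul_one_div, mul_pow]
  rw [hs, wo_ones]
  exact ⟨-d, by ring⟩

theorem cmp (hS : S_Sup) (hD : S_Dlm) : S_Cmp := by
  refine ⟨fun d hd n hn L hL a H => part1 hS hD d hd n hn L hL a H, fun d hd n hn => ⟨fun a => ?_, part2 hD d hd n⟩⟩
  refine part1 hS hD d hd n hn _ (one_le_pow₀ (by norm_num)) a fun u hu h1 h2 _ => ?_
  have hsum : u.length ≤ u.sum := by
    have := List.card_nsmul_le_sum u 1 hu
    simpa using this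
  calc (3 : ℝ) ^ u.length = (3 / 2) ^ u.length * 2 ^ u.length := by rw [← mul_pow]; norm_num
    _ ≤ (3 / 2) ^ n * 2 ^ u.sum :=
      mul_le_mul (pow_le_pow_right₀ (by norm_num) h2) (pow_le_pow_right₀ (by norm_num) hsum) (by positivity) (by positivity)

end Pool.Agent.Q299.PD.Cmp
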