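import Pool.Agent.Q74.PD.Stm10

/-! Project PD, job Mol: lower bound for the moments of `Dn`. -/

set_option autoImplicit false

namespace Pool.Agent.Q299.PD.Mol

open Finset Filter Topology
open Pool.Agent.Q74.PD Pool.Agent.H320R2.PD

theorem sum_rpow_le {ι : Type} (s : Finset ι) (f : ι → ℝ) (hf : ∀ i ∈ s, 0 ≤ f i) {p : ℝ} (hp : 1 ≤ p) :
    ∑ i ∈ s, f i ^ p ≤ (∑ i ∈ s, f i) ^ p := by
  classical
  induction s using Finset.induction_on with
  | empty =>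
    rw [sum_empty, sum_empty, Real.zero_rpow (by linarith)]
  | insert i s hi ih =>
    rw [sum_insert hi, sum_insert hi]
    refine le_trans ?_ (Real.add_rpow_le_rpow_add (hf i (mem_insert_self _ _))
      (sum_nonneg fun j hj => hf j (mem_insert_of_mem hj)) hp)
    have := ih fun j hj => hf j (mem_insert_of_mem hj)
    linarith

theorem low (hD : S_Dlm) (d : ℤ) (hd : IsCoprime d 3) (p : ℝ) (hp : 1 ≤ p) (n cap : ℕ) :
    ((3 : ℝ) ^ n) ^ p * (∑ e ∈ Icc 1 cap, ((2 : ℝ) ^ (-p)) ^ e) ^ n ≤ ∑ b ∈ range (3 ^ n), Dn d n b ^ p := by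
  classical
  have hp0 : 0 ≤ p := by linarith
  have h1 : ∀ b : ℕ, ∑ w ∈ FW cap n, (if (3 : ℤ) ^ n ∣ 2 ^ w.sum * (b : ℤ) - d * Wo w then ((3 : ℝ) ^ n * wwt w) ^ p else 0) ≤
      Dn d n b ^ p := by
    intro b
    have h2 : Dc d cap n b ^ p ≤ Dn d n b ^ p :=
      Real.rpow_le_rpow ((hD d hd n).1 cap b).1 ((hD d hd n).1 cap b).2.1 hp0
    refine le_trans ?_ h2
    unfold Dc
    refine le_trans (le_of_eq ?_) (sum_rpow_le (FW cap n) (fun w : List ℕ =>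
      if (3 : ℤ) ^ n ∣ 2 ^ w.sum * (b : ℤ) - d * Wo w then (3 : ℝ) ^ n * wwt w else 0) (fun w _ => ?_) hp)
    · refine sum_congr rfl fun w _ => ?_
      split_ifs
      · rfl
      · rw [Real.zero_rpow (by linarith)]
    · split_ifs
      · have := wwt_nonneg w
        positivity
      · exact le_rfl
  refine le_trans (le_of_eq ?_) (sum_le_sum fun b _ => h1 b)
  rw [sum_comm, ← sum_pow, mul_sum]
  refine sum_congr rfl fun w _ => ?_
  rw [← sum_filter, sum_const, unique_class, one_smul, wwt, Real.mul_rpow (by positivity) (by positivity)]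
  congr 1
  rw [Real.rpow_neg (by norm_num), ← Real.inv_rpow (by norm_num), ← one_div,
    ← Real.rpow_natCast ((1 / 2 : ℝ) ^ p), ← Real.rpow_natCast (1 / 2 : ℝ), ← Real.rpow_mul (by norm_num),
    ← Real.rpow_mul (by norm_num), mul_comm]

theorem lim (p : ℝ) (hp : 1 ≤ p) (n : ℕ) : Tendsto (fun cap : ℕ => ((3 : ℝ) ^ n) ^ p *
    (∑ e ∈ Icc 1 cap, ((2 : ℝ) ^ (-p)) ^ e) ^ n) atTop (𝓝 (((3 : ℝ) ^ n) ^ p * (1 / (2 ^ p - 1)) ^ n)) := by
  have h2 : (1 : ℝ) < 2 ^ p := Real.one_lt_rpow (by norm_num) (by linarith)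
  have hr0 : (0 : ℝ) ≤ 2 ^ (-p) := by positivity
  have hr1 : (2 : ℝ) ^ (-p) < 1 := by
    rw [Real.rpow_neg (by norm_num)]
    exact inv_lt_one_of_one_lt₀ h2
  have h3 : ∀ cap : ℕ, ∑ e ∈ Icc 1 cap, ((2 : ℝ) ^ (-p)) ^ e = ∑ e ∈ range cap, ((2 : ℝ) ^ (-p)) ^ (e + 1) := by
    intro cap
    induction cap with
    | zero => simp
    | succ c ih => rw [sum_Icc_succ_top (by omega), ih, sum_range_succ]
  have h4 : HasSum (fun e : ℕ => ((2 : ℝ) ^ (-p)) ^ (e + 1)) (1 / (2 ^ p - 1)) := by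
    have h5 := (hasSum_geometric_of_lt_one hr0 hr1).mul_left ((2 : ℝ) ^ (-p))
    have h6 : (2 : ℝ) ^ (-p) * (1 - (2 : ℝ) ^ (-p))⁻¹ = 1 / (2 ^ p - 1) := by
      rw [Real.rpow_neg (by norm_num)]
      have h7 : (2 : ℝ) ^ p ≠ 0 := by positivity
      have h8 : (2 : ℝ) ^ p - 1 ≠ 0 := by linarith
      have h9 : 1 - ((2 : ℝ) ^ p)⁻¹ = (2 ^ p - 1) / 2 ^ p := by
        rw [sub_div, div_self h7, one_div]
      rw [h9, inv_div]
      field_simp
    rw [h6] at h5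
    refine h5.congr_fun ?_ |> fun h => h
    intro e
    rw [pow_succ']
  have h5 := (h4.tendsto_sum_nat.pow n).const_mul (((3 : ℝ) ^ n) ^ p)
  refine h5.congr fun cap => ?_
  rw [h3]

theorem mol (hD : S_Dlm) : S_Mol := by
  intro d hd p hp n
  have h1 : ((3 : ℝ) ^ n) ^ p * (1 / (2 ^ p - 1)) ^ n ≤ ∑ b ∈ range (3 ^ n), Dn d n b ^ p :=
    le_of_tendsto' (lim p hp n) fun cap => low hD d hd p hp n cap
  rw [le_div_iff₀ (by positivity)]
  refine le_trans (le_of_eq ?_) h1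
  have h3 : ((3 : ℝ) ^ n) ^ p = (3 ^ (p - 1)) ^ n * 3 ^ n := by
    rw [← Real.rpow_natCast, ← Real.rpow_mul (by norm_num), ← Real.rpow_natCast ((3 : ℝ) ^ (p - 1)),
      ← Real.rpow_mul (by norm_num), ← Real.rpow_add (by norm_num)]
    congr 1
    ring
  rw [h3, div_pow, div_pow, one_pow]
  ring

end Pool.Agent.Q299.PD.Mol
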